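import Pool.Agent.Y165.FK.C

/-!
# Real radial symbols `|z₀|^(2l) ∑_j |z_j|^(2r)` and the perturbation `-c |z₀|^(2l)`
-/

set_option autoImplicit false

open MeasureTheory Complex Set Filter
open scoped Real Topology ComplexConjugate InnerProductSpace

namespace Pool.Agent.Y165.FK

open Pool.Agent.Helper421.Gauss1 Pool.Agent.Helper421.FockDefs Pool.Agent.Helper421.CompactRes

/-- rising factorials -/
noncomputable def rf (a p : ℕ) : ℝ :=
  ((Nat.factorial (p + a) : ℕ) : ℝ) / ((Nat.factorial p : ℕ) : ℝ)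

lemma rf_zero (p : ℕ) : rf 0 p = 1 := by
  unfold rf
  rw [add_zero]
  exact div_self (by exact_mod_cast Nat.factorial_ne_zero _)

lemma rf_at (a : ℕ) : rf a 0 = ((Nat.factorial a : ℕ) : ℝ) := by
  unfold rf
  simp

lemma rf_ge {a : ℕ} (ha : 1 ≤ a) (p : ℕ) : (p : ℝ) + 1 ≤ rf a p := by
  unfold rf
  rw [le_div_iff₀ (by exact_mod_cast Nat.factorial_pos p)]
  have h : (p + 1) * Nat.factorial p ≤ Nat.factorial (p + a) := by
    rw [← Nat.factorial_succ]
    exact Nat.factorial_le (by omega)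
  exact_mod_cast h

lemma ev_eq {n : ℕ} (a p : Fin n → ℕ) : ev a p = ∏ i, rf (a i) (p i) := rfl

/-- the exponent of `|z₀|^(2l) |z_j|^(2r)` -/
def aa {N : ℕ} (l r : ℕ) (j : Fin (N + 2)) : Fin (N + 2) → ℕ := Pi.single 0 l + Pi.single j r

lemma aa_zero {N : ℕ} (l r : ℕ) {j : Fin (N + 2)} (hj : j ≠ 0) : aa l r j 0 = l := by
  simp [aa, hj.symm]

lemma aa_self {N : ℕ} (l r : ℕ) {j : Fin (N + 2)} (hj : j ≠ 0) : aa l r j j = r := by
  simp [aa, hj]

lemma aa_other {N : ℕ} (l r : ℕ) {j c : Fin (N + 2)} (h0 : c ≠ 0) (hj : c ≠ j) :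
    aa l r j c = 0 := by
  simp [aa, h0, hj]

lemma ev_aa {N : ℕ} (l r : ℕ) {j : Fin (N + 2)} (hj : j ≠ 0) (p : Fin (N + 2) → ℕ) :
    ev (aa l r j) p = rf l (p 0) * rf r (p j) := by
  rw [ev_eq, Finset.prod_eq_mul (0 : Fin (N + 2)) j hj.symm, aa_zero l r hj, aa_self l r hj]
  · rintro c _ ⟨h0, h1⟩
    rw [aa_other l r h0 h1, rf_zero]
  · intro h; exact absurd (Finset.mem_univ _) h
  · intro h; exact absurd (Finset.mem_univ _) h

lemma wt_aa {N : ℕ} (l r : ℕ) {j : Fin (N + 2)} (hj : j ≠ 0) (z : Fin (N + 2) → ℂ) :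
    wt (aa l r j) z = ((‖z 0‖ ^ (2 * l) : ℝ) : ℂ) * ((‖z j‖ ^ (2 * r) : ℝ) : ℂ) := by
  unfold wt
  rw [Finset.prod_eq_mul (0 : Fin (N + 2)) j hj.symm, aa_zero l r hj, aa_self l r hj]
  · rintro c _ ⟨h0, h1⟩
    rw [aa_other l r h0 h1]
    simp
  · intro h; exact absurd (Finset.mem_univ _) h
  · intro h; exact absurd (Finset.mem_univ _) h

lemma ev_single {N : ℕ} (l : ℕ) (p : Fin (N + 2) → ℕ) :
    ev (Pi.single 0 l) p = rf l (p 0) := by
  rw [ev_eq, Finset.prod_eq_single (0 : Fin (N + 2))]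
  · simp
  · intro c _ h0
    rw [Pi.single_eq_of_ne h0, rf_zero]
  · intro h; exact absurd (Finset.mem_univ _) h

lemma wt_single {N : ℕ} (l : ℕ) (z : Fin (N + 2) → ℂ) :
    wt (Pi.single 0 l) z = ((‖z 0‖ ^ (2 * l) : ℝ) : ℂ) := by
  unfold wt
  rw [Finset.prod_eq_single (0 : Fin (N + 2))]
  · simp
  · intro c _ h0
    rw [Pi.single_eq_of_ne h0]
    simp
  · intro h; exact absurd (Finset.mem_univ _) h

/-- `ψ = ∑_(j ≠ 0) |z₀|^(2l) |z_j|^(2r)` -/
noncomputable def psi (N l r : ℕ) : MvPolynomial (Fin (N + 2) ⊕ Fin (N + 2)) ℂ :=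
  ∑ j ∈ Finset.univ.erase (0 : Fin (N + 2)),
    (MvPolynomial.X (Sum.inl 0) * MvPolynomial.X (Sum.inr 0)) ^ l *
      (MvPolynomial.X (Sum.inl j) * MvPolynomial.X (Sum.inr j)) ^ r

/-- `φ₁ = -(N + 1) r! |z₀|^(2l)` -/
noncomputable def phi1 (N l r : ℕ) : MvPolynomial (Fin (N + 2) ⊕ Fin (N + 2)) ℂ :=
  MvPolynomial.C (((-(((N + 1 : ℕ) : ℝ) * ((Nat.factorial r : ℕ) : ℝ)) : ℝ) : ℂ)) *
    (MvPolynomial.X (Sum.inl 0) * MvPolynomial.X (Sum.inr 0)) ^ l

lemma psi_hom (N l r : ℕ) : (psi N l r).IsHomogeneous (2 * (l + r)) := by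
  have h : ∀ i : Fin (N + 2) ⊕ Fin (N + 2),
      (MvPolynomial.X i : MvPolynomial (Fin (N + 2) ⊕ Fin (N + 2)) ℂ).IsHomogeneous 1 :=
    fun i => MvPolynomial.isHomogeneous_X ℂ i
  unfold psi
  apply MvPolynomial.IsHomogeneous.sum
  intro j _
  have h1 := (((h (Sum.inl 0)).mul (h (Sum.inr 0))).pow l).mul
    (((h (Sum.inl j)).mul (h (Sum.inr j))).pow r)
  have e : (1 + 1) * l + (1 + 1) * r = 2 * (l + r) := by ring
  rwa [e] at h1

lemma phi1_hom (N l r : ℕ) : (phi1 N l r).IsHomogeneous (2 * l) := by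
  have h : ∀ i : Fin (N + 2) ⊕ Fin (N + 2),
      (MvPolynomial.X i : MvPolynomial (Fin (N + 2) ⊕ Fin (N + 2)) ℂ).IsHomogeneous 1 :=
    fun i => MvPolynomial.isHomogeneous_X ℂ i
  unfold phi1
  have h1 := (MvPolynomial.isHomogeneous_C (Fin (N + 2) ⊕ Fin (N + 2))
    (((-(((N + 1 : ℕ) : ℝ) * ((Nat.factorial r : ℕ) : ℝ)) : ℝ) : ℂ))).mul
    (((h (Sum.inl 0)).mul (h (Sum.inr 0))).pow l)
  have e : 0 + (1 + 1) * l = 2 * l := by ring
  rwa [e] at h1

lemma mul_conj_pow (w : ℂ) (l : ℕ) : (w * conj w) ^ l = ((‖w‖ ^ (2 * l) : ℝ) : ℂ) := by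
  rw [Complex.mul_conj', pow_mul]
  push_cast
  rfl

lemma symbol_psi (N l r : ℕ) (z : Fin (N + 2) → ℂ) :
    symbol (psi N l r) z = ∑ j ∈ Finset.univ.erase (0 : Fin (N + 2)), wt (aa l r j) z := by
  unfold symbol psi
  rw [map_sum]
  refine Finset.sum_congr rfl fun j hj => ?_
  rw [wt_aa l r (Finset.ne_of_mem_erase hj)]
  simp only [map_mul, map_pow, MvPolynomial.eval_X, Sum.elim_inl, Sum.elim_inr]
  rw [mul_conj_pow, mul_conj_pow]

lemma symbol_phi1 (N l r : ℕ) (z : Fin (N + 2) → ℂ) :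
    symbol (phi1 N l r) z = ((-(((N + 1 : ℕ) : ℝ) * ((Nat.factorial r : ℕ) : ℝ)) : ℝ) : ℂ) *
      wt (Pi.single 0 l) z := by
  unfold symbol phi1
  rw [wt_single]
  simp only [map_mul, map_pow, MvPolynomial.eval_X, MvPolynomial.eval_C, Sum.elim_inl,
    Sum.elim_inr]
  rw [mul_conj_pow]

lemma symbol_add (N l r : ℕ) (z : Fin (N + 2) → ℂ) :
    symbol (psi N l r + phi1 N l r) z = symbol (psi N l r) z + symbol (phi1 N l r) z := by
  unfold symbol
  rw [map_add]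

lemma diag_psi (N l r : ℕ) : Diag (symbol (psi N l r))
    (fun p => ∑ j ∈ Finset.univ.erase (0 : Fin (N + 2)), ev (aa l r j) p) := by
  have h : symbol (psi N l r) = fun z => ∑ j ∈ Finset.univ.erase (0 : Fin (N + 2)),
      wt (aa l r j) z := funext fun z => symbol_psi N l r z
  rw [h]
  exact Diag.sum _ _ _ fun j => diag_wt (aa l r j)

lemma diag_phi (N l r : ℕ) : Diag (symbol (psi N l r + phi1 N l r))
    (fun p => (∑ j ∈ Finset.univ.erase (0 : Fin (N + 2)), ev (aa l r j) p) +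
      (-(((N + 1 : ℕ) : ℝ) * ((Nat.factorial r : ℕ) : ℝ))) * ev (Pi.single 0 l) p) := by
  have h : symbol (psi N l r + phi1 N l r) = fun z => symbol (psi N l r) z +
      ((-(((N + 1 : ℕ) : ℝ) * ((Nat.factorial r : ℕ) : ℝ)) : ℝ) : ℂ) *
      wt (Pi.single 0 l) z := funext fun z => by
    rw [symbol_add, symbol_phi1]
  rw [h]
  exact (diag_psi N l r).add ((diag_wt (Pi.single 0 l)).smul _)

lemma d_ge {N l r : ℕ} (hl : 1 ≤ l) (hr : 1 ≤ r) (p : Fin (N + 2) → ℕ) (i : Fin (N + 2)) :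
    (p i : ℝ) + 1 ≤ ∑ j ∈ Finset.univ.erase (0 : Fin (N + 2)), ev (aa l r j) p := by
  have hnn : ∀ j ∈ Finset.univ.erase (0 : Fin (N + 2)), 0 ≤ ev (aa l r j) p := by
    intro j hj
    rw [ev_aa l r (Finset.ne_of_mem_erase hj)]
    have h1 := rf_ge hl (p 0)
    have h2 := rf_ge hr (p j)
    have h3 : (0 : ℝ) ≤ p 0 := Nat.cast_nonneg _
    have h4 : (0 : ℝ) ≤ p j := Nat.cast_nonneg _
    exact mul_nonneg (by linarith) (by linarith)
  have key : ∀ j : Fin (N + 2), j ≠ 0 → ((p 0 : ℝ) + 1) * ((p j : ℝ) + 1) ≤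
      ∑ j ∈ Finset.univ.erase (0 : Fin (N + 2)), ev (aa l r j) p := by
    intro j hj
    have h0 := Finset.single_le_sum hnn (Finset.mem_erase.mpr ⟨hj, Finset.mem_univ j⟩)
    rw [ev_aa l r hj] at h0
    have h1 := rf_ge hl (p 0)
    have h2 := rf_ge hr (p j)
    have h3 : (0 : ℝ) ≤ p 0 := Nat.cast_nonneg _
    have h4 : (0 : ℝ) ≤ p j := Nat.cast_nonneg _
    have h5 : ((p 0 : ℝ) + 1) * ((p j : ℝ) + 1) ≤ rf l (p 0) * rf r (p j) :=
      mul_le_mul h1 h2 (by linarith) (by linarith)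
    linarith
  have h3 : (0 : ℝ) ≤ p 0 := Nat.cast_nonneg _
  by_cases hi : i = 0
  · subst hi
    have h := key 1 (by simp)
    have h4 : (0 : ℝ) ≤ p 1 := Nat.cast_nonneg _
    nlinarith [mul_nonneg h3 h4]
  · have h := key i hi
    have h4 : (0 : ℝ) ≤ p i := Nat.cast_nonneg _
    nlinarith [mul_nonneg h3 h4]

lemma d_tendsto {N l r : ℕ} (hl : 1 ≤ l) (hr : 1 ≤ r) :
    Tendsto (fun p : Fin (N + 2) → ℕ =>
      ∑ j ∈ Finset.univ.erase (0 : Fin (N + 2)), ev (aa l r j) p) cofinite atTop := by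
  rw [tendsto_atTop]
  intro b
  rw [eventually_cofinite]
  apply (Finset.finite_toSet (Fintype.piFinset fun _ : Fin (N + 2) =>
    Finset.range (⌈b⌉₊ + 1))).subset
  intro p h
  have h1 : ∑ j ∈ Finset.univ.erase (0 : Fin (N + 2)), ev (aa l r j) p < b := not_le.mp h
  rw [Finset.mem_coe, Fintype.mem_piFinset]
  intro i
  rw [Finset.mem_range]
  have h2 := d_ge hl hr p i
  have hb : b ≤ (⌈b⌉₊ : ℝ) := Nat.le_ceil b
  have h3 : (p i : ℝ) < ⌈b⌉₊ := by linarith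
  have h4 : p i < ⌈b⌉₊ := by exact_mod_cast h3
  omega

theorem main {N l r : ℕ} (hl : 1 ≤ l) (hr : 1 ≤ r) :
    (toeplitz (N + 2) (symbol (psi N l r))).IsClosable ∧
    (toeplitz (N + 2) (symbol (psi N l r + phi1 N l r))).IsClosable ∧
    HasCompactResolvent (toeplitz (N + 2) (symbol (psi N l r))).closure ∧
    ¬ HasCompactResolvent (toeplitz (N + 2) (symbol (psi N l r + phi1 N l r))).closure := by
  refine ⟨(diag_psi N l r).isClosable, (diag_phi N l r).isClosable, ?_, ?_⟩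
  · apply (diag_psi N l r).compact _ (d_tendsto hl hr)
    intro p
    have h := d_ge hl hr p 0
    have h3 : (0 : ℝ) ≤ p 0 := Nat.cast_nonneg _
    linarith
  · apply (diag_phi N l r).not_compact 0 (fun k => Pi.single 0 k)
      (fun a b hab => by simpa using congrFun hab 0)
    intro k
    have h1 : ∀ j ∈ Finset.univ.erase (0 : Fin (N + 2)), ev (aa l r j) (Pi.single 0 k) =
        rf l k * ((Nat.factorial r : ℕ) : ℝ) := by
      intro j hj
      rw [ev_aa l r (Finset.ne_of_mem_erase hj), Pi.single_eq_same,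
        Pi.single_eq_of_ne (Finset.ne_of_mem_erase hj), rf_at]
    rw [Finset.sum_congr rfl h1, ev_single, Pi.single_eq_same, Finset.sum_const,
      Finset.card_erase_of_mem (Finset.mem_univ _), Finset.card_univ, Fintype.card_fin, nsmul_eq_mul]
    have h2 : N + 2 - 1 = N + 1 := by omega
    rw [h2]
    ring

/-- the operator with the perturbed symbol kills infinitely many orthonormal vectors -/
theorem kernel (N l r : ℕ) : ∃ v : ℕ → Fock (N + 2), Orthonormal ℂ v ∧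
    ∀ k, ∃ h : v k ∈ (toeplitz (N + 2) (symbol (psi N l r + phi1 N l r))).domain,
      toeplitz (N + 2) (symbol (psi N l r + phi1 N l r)) ⟨v k, h⟩ = 0 := by
  refine ⟨fun k => eF (Pi.single 0 k), orthonormal_eF.comp (fun k => Pi.single 0 k)
    (fun a b hab => by simpa using congrFun hab 0), fun k =>
    ⟨(diag_phi N l r).mem_domain _, ?_⟩⟩
  rw [(diag_phi N l r).apply_eF]
  have h1 : ∀ j ∈ Finset.univ.erase (0 : Fin (N + 2)), ev (aa l r j) (Pi.single 0 k) =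
      rf l k * ((Nat.factorial r : ℕ) : ℝ) := by
    intro j hj
    rw [ev_aa l r (Finset.ne_of_mem_erase hj), Pi.single_eq_same,
      Pi.single_eq_of_ne (Finset.ne_of_mem_erase hj), rf_at]
  rw [Finset.sum_congr rfl h1, ev_single, Pi.single_eq_same, Finset.sum_const,
    Finset.card_erase_of_mem (Finset.mem_univ _), Finset.card_univ, Fintype.card_fin, nsmul_eq_mul]
  have h2 : N + 2 - 1 = N + 1 := by omega
  have h3 : ((N + 2 - 1 : ℕ) : ℝ) * (rf l k * ((Nat.factorial r : ℕ) : ℝ)) +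
      -(((N + 1 : ℕ) : ℝ) * ((Nat.factorial r : ℕ) : ℝ)) * rf l k = 0 := by
    rw [h2]
    ring
  rw [h3, Complex.ofReal_zero]
  exact zero_smul ℂ (eF (Pi.single 0 k))

lemma psi_real (N l r : ℕ) (z : Fin (N + 2) → ℂ) :
    ∃ x : ℝ, 0 ≤ x ∧ symbol (psi N l r) z = x := by
  refine ⟨∑ j ∈ Finset.univ.erase (0 : Fin (N + 2)), ‖z 0‖ ^ (2 * l) * ‖z j‖ ^ (2 * r),
    Finset.sum_nonneg fun j _ => by positivity, ?_⟩
  rw [symbol_psi]
  push_cast
  refine Finset.sum_congr rfl fun j hj => ?_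
  rw [wt_aa l r (Finset.ne_of_mem_erase hj)]
  push_cast
  rfl

lemma phi1_real (N l r : ℕ) (z : Fin (N + 2) → ℂ) :
    symbol (phi1 N l r) z = ((-(((N + 1 : ℕ) : ℝ) * ((Nat.factorial r : ℕ) : ℝ) *
      ‖z 0‖ ^ (2 * l)) : ℝ) : ℂ) := by
  rw [symbol_phi1, wt_single]
  push_cast
  ring

end Pool.Agent.Y165.FK
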