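import Mathlib
import Pool.Agent.Helper421.Gauss2
import Pool.Agent.Helper421.CompactRes

/-!
# Gaussian integrals in `n` complex variables
-/

set_option autoImplicit false

open MeasureTheory Complex Set Filter
open scoped Real Topology ComplexConjugate InnerProductSpace

namespace Pool.Agent.Y165.FK

open Pool.Agent.Helper421.Gauss1 Pool.Agent.Helper421.FockDefs

variable {n : ℕ}

lemma integrable_exp_neg : Integrable (fun z : ℂ => Real.exp (-‖z‖ ^ 2)) := by
  refine ⟨by fun_prop, ?_⟩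
  unfold HasFiniteIntegral
  have h : ∫⁻ z : ℂ, ‖Real.exp (-‖z‖ ^ 2)‖ₑ = mu1 univ := by
    unfold mu1
    rw [withDensity_apply _ MeasurableSet.univ, Measure.restrict_univ]
    congr 1
    ext z
    unfold w1
    rw [Real.enorm_eq_ofReal (Real.exp_pos _).le]
  rw [h]
  exact measure_lt_top _ _

lemma gauss_pi (n : ℕ) : gaussMeasure n = Measure.pi (fun _ : Fin n => mu1) := by
  symm
  refine Measure.pi_eq fun s hs => ?_
  have hI3 : Integrable (fun x : Fin n → ℂ => ∏ i, Real.exp (-‖x i‖ ^ 2)) :=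
    Integrable.fintype_prod (ι := Fin n) (f := fun _ z => Real.exp (-‖z‖ ^ 2))
      (fun _ => integrable_exp_neg)
  have hms : MeasurableSet (Set.univ.pi s) := MeasurableSet.univ_pi hs
  have e0 : (fun z : Fin n → ℂ => ENNReal.ofReal (Real.exp (-∑ i, ‖z i‖ ^ 2))) =
      fun z => ENNReal.ofReal (∏ i, Real.exp (-‖z i‖ ^ 2)) := by
    ext z
    rw [← Real.exp_sum, Finset.sum_neg_distrib]
  unfold gaussMeasure
  rw [e0, withDensity_apply _ hms, ← ofReal_integral_eq_lintegral_ofReal hI3.integrableOn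
    (Eventually.of_forall fun x => Finset.prod_nonneg fun i _ => (Real.exp_pos _).le)]
  have h1 : ∫ x in Set.univ.pi s, ∏ i, Real.exp (-‖x i‖ ^ 2) =
      ∏ i, ∫ x in s i, Real.exp (-‖x‖ ^ 2) := by
    rw [volume_pi, Measure.restrict_pi_pi]
    exact integral_fintype_prod_eq_prod (fun (_ : Fin n) (z : ℂ) => Real.exp (-‖z‖ ^ 2))
  rw [h1, ENNReal.ofReal_prod_of_nonneg (fun i _ => integral_nonneg fun _ => (Real.exp_pos _).le)]
  refine Finset.prod_congr rfl fun i _ => ?_
  unfold mu1 w1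
  rw [withDensity_apply _ (hs i), ofReal_integral_eq_lintegral_ofReal
    integrable_exp_neg.integrableOn (Eventually.of_forall fun _ => (Real.exp_pos _).le)]

instance : IsFiniteMeasure (gaussMeasure n) := by
  rw [gauss_pi]
  infer_instance

/-- monomials on `ℂⁿ` -/
noncomputable def mon (p : Fin n → ℕ) (z : Fin n → ℂ) : ℂ := ∏ i, z i ^ p i

/-- the weight `∏ |z_i|^(2 a_i)` -/
noncomputable def wt (a : Fin n → ℕ) (z : Fin n → ℂ) : ℂ := ∏ i, ((‖z i‖ ^ (2 * a i) : ℝ) : ℂ)

lemma integral_mon (q p a : Fin n → ℕ) :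
    ∫ z, conj (mon q z) * (wt a z * mon p z) ∂(gaussMeasure n) =
      if q = p then (π : ℂ) ^ n * ∏ i, ((Nat.factorial (p i + a i) : ℕ) : ℂ) else 0 := by
  have h : ∀ z : Fin n → ℂ, conj (mon q z) * (wt a z * mon p z) =
      ∏ i, (conj (z i) ^ q i * (((‖z i‖ ^ (2 * a i) : ℝ) : ℂ) * z i ^ p i)) := by
    intro z
    unfold mon wt
    rw [map_prod, Finset.prod_mul_distrib, Finset.prod_mul_distrib]
    simp only [map_pow]
  simp_rw [h]
  rw [gauss_pi, integral_fintype_prod_eq_prod
    (fun (i : Fin n) (z : ℂ) => conj z ^ q i * (((‖z‖ ^ (2 * a i) : ℝ) : ℂ) * z ^ p i))]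
  simp_rw [Pool.Agent.Helper421.Gauss2.integral_norm_pow_mul]
  split_ifs with hqp
  · subst hqp
    simp only [if_true]
    rw [Finset.prod_mul_distrib, Finset.prod_const, Finset.card_univ, Fintype.card_fin]
  · obtain ⟨i, hi⟩ := Function.ne_iff.mp hqp
    exact Finset.prod_eq_zero (Finset.mem_univ i) (if_neg hi)

lemma memLp_wt_mon (a p : Fin n → ℕ) :
    MemLp (fun z => wt a z * mon p z) 2 (gaussMeasure n) := by
  have hmeas : AEStronglyMeasurable (fun z => wt a z * mon p z) (gaussMeasure n) := by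
    apply Continuous.aestronglyMeasurable
    unfold wt mon
    fun_prop
  rw [memLp_two_iff_integrable_sq_norm hmeas, gauss_pi]
  have h1 := Integrable.fintype_prod (ι := Fin n) (μ := fun _ => mu1)
    (f := fun i z => ((‖z‖ ^ (2 * (2 * a i + p i)) : ℝ) : ℂ))
    (fun i => Pool.Agent.Helper421.Gauss2.integrable_norm_pow (2 * a i + p i))
  have h3 := h1.norm
  refine h3.congr (Filter.Eventually.of_forall fun z => ?_)
  show ‖_‖ = ‖wt a z * mon p z‖ ^ 2
  unfold wt mon
  rw [norm_mul, norm_prod, norm_prod, norm_prod, mul_pow, ← Finset.prod_pow, ← Finset.prod_pow,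
    ← Finset.prod_mul_distrib]
  refine Finset.prod_congr rfl fun i _ => ?_
  simp only [norm_pow, Complex.norm_real, norm_norm]
  ring

lemma memLp_mon (p : Fin n → ℕ) : MemLp (mon p) 2 (gaussMeasure n) := by
  refine (memLp_congr_ae (Filter.Eventually.of_forall fun z => ?_)).mp (memLp_wt_mon 0 p)
  simp [wt]

lemma memLp_conj_mon (p : Fin n → ℕ) :
    MemLp (fun z => conj (mon p z)) 2 (gaussMeasure n) := by
  have h := (memLp_mon p).star
  refine (memLp_congr_ae (Filter.Eventually.of_forall fun z => ?_)).mp h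
  simp

/-- rotations preserve the Gaussian measure -/
lemma rot_mp' (a : Circle) :
    MeasurePreserving (fun z : Fin n → ℂ => (a : ℂ) • z) (gaussMeasure n) (gaussMeasure n) := by
  rw [gauss_pi]
  exact measurePreserving_pi (fun _ : Fin n => mu1) (fun _ => mu1) (fun _ => rot_mp a)

lemma rot_emb (a : Circle) : MeasurableEmbedding (fun z : Fin n → ℂ => (a : ℂ) • z) := by
  have h : (a : ℂ) ≠ 0 := Circle.coe_ne_zero a
  exact (Homeomorph.smulOfNeZero (a : ℂ) h).measurableEmbedding

lemma integral_rot' {E : Type} [NormedAddCommGroup E] [NormedSpace ℝ E] (a : Circle)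
    (f : (Fin n → ℂ) → E) :
    ∫ z, f ((a : ℂ) • z) ∂(gaussMeasure n) = ∫ z, f z ∂(gaussMeasure n) :=
  (rot_mp' a).integral_comp (rot_emb a) f

lemma mon_smul (p : Fin n → ℕ) (c : ℂ) (z : Fin n → ℂ) :
    mon p (c • z) = c ^ (∑ i, p i) * mon p z := by
  unfold mon
  rw [← Finset.prod_pow_eq_pow_sum, ← Finset.prod_mul_distrib]
  refine Finset.prod_congr rfl fun i _ => ?_
  rw [Pi.smul_apply, smul_eq_mul, mul_pow]

end Pool.Agent.Y165.FK
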