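import Pool.Agent.Y165.FK.A

/-!
# The normalised monomials are dense in the Bargmann-Segal space of `ℂⁿ`
-/

set_option autoImplicit false

open MeasureTheory Complex Set Filter
open scoped Real Topology ComplexConjugate InnerProductSpace

namespace Pool.Agent.Y165.FK

open Pool.Agent.Helper421.Gauss1 Pool.Agent.Helper421.FockDefs

variable {n : ℕ}

/-- the homogeneous part of degree `k` -/
noncomputable def hk (F : (Fin n → ℂ) → ℂ) (k : ℕ) (z : Fin n → ℂ) : ℂ :=
  ((Nat.factorial k : ℕ) : ℂ)⁻¹ * iteratedDeriv k (fun t : ℂ => F (t • z)) 0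

lemma diff_line (F : (Fin n → ℂ) → ℂ) (hF : AnalyticOnNhd ℂ F univ) (z : Fin n → ℂ) :
    Differentiable ℂ (fun t : ℂ => F (t • z)) := by
  have h1 : Differentiable ℂ F := fun z => (hF z (mem_univ _)).differentiableAt
  exact h1.comp (by fun_prop)

lemma hasSum_hk (F : (Fin n → ℂ) → ℂ) (hF : AnalyticOnNhd ℂ F univ) (z : Fin n → ℂ) :
    HasSum (fun k => hk F k z) (F z) := by
  have h := Complex.hasSum_taylorSeries_of_entire (diff_line F hF z) 0 1
  have e : (fun k => hk F k z) = fun k : ℕ => ((Nat.factorial k : ℕ) : ℂ)⁻¹ • ((1 : ℂ) - 0) ^ k •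
      iteratedDeriv k (fun t : ℂ => F (t • z)) 0 := by
    ext k
    simp only [hk, smul_eq_mul, sub_zero, one_pow, one_mul]
  rw [e]
  simpa using h

lemma hk_eq (F : (Fin n → ℂ) → ℂ) (hF : AnalyticOnNhd ℂ F univ) (k : ℕ) (z : Fin n → ℂ) :
    hk F k z = ((Nat.factorial k : ℕ) : ℂ)⁻¹ * iteratedFDeriv ℂ k F 0 (fun _ => z) := by
  unfold hk
  congr 1
  have hc : ContDiff ℂ k F := contDiffOn_univ.mp hF.contDiffOn_of_completeSpace
  have h := (ContinuousLinearMap.toSpanSingleton ℂ z).iteratedFDeriv_comp_right hc (0 : ℂ)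
    (i := k) le_rfl
  have e : (fun t : ℂ => F (t • z)) = F ∘ (ContinuousLinearMap.toSpanSingleton ℂ z) := by
    ext t
    simp
  rw [iteratedDeriv_eq_iteratedFDeriv, e, h]
  simp

/-- the multi-index of a word -/
def cnt {k : ℕ} (r : Fin k → Fin n) (i : Fin n) : ℕ :=
  (Finset.univ.filter (fun j => r j = i)).card

lemma cnt_sum {k : ℕ} (r : Fin k → Fin n) : ∑ i, cnt r i = k := by
  unfold cnt
  have := Finset.card_eq_sum_card_fiberwise (f := r) (s := Finset.univ) (t := Finset.univ)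
    (by simp)
  simpa using this.symm

lemma mon_cnt {k : ℕ} (r : Fin k → Fin n) (z : Fin n → ℂ) : mon (cnt r) z = ∏ j, z (r j) := by
  unfold mon cnt
  rw [← Finset.prod_fiberwise' Finset.univ r z]
  refine Finset.prod_congr rfl fun i _ => ?_
  rw [Finset.prod_const]

lemma poly_hk (F : (Fin n → ℂ) → ℂ) (hF : AnalyticOnNhd ℂ F univ) (k : ℕ) :
    ∃ a : (Fin n → ℕ) → ℂ, ∀ z, hk F k z =
      ∑ p ∈ Finset.piAntidiag Finset.univ k, a p * mon p z := by
  classical
  obtain ⟨M, hM⟩ : ∃ M, M = iteratedFDeriv ℂ k F 0 := ⟨_, rfl⟩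
  refine ⟨fun p => ∑ r ∈ (Finset.univ : Finset (Fin k → Fin n)).filter (fun r => cnt r = p),
    ((Nat.factorial k : ℕ) : ℂ)⁻¹ * M (fun j => Pi.single (r j) 1), fun z => ?_⟩
  rw [hk_eq F hF, ← hM]
  have h1 : M (fun _ => z) = ∑ r : Fin k → Fin n, (∏ j, z (r j)) *
      M (fun j => Pi.single (r j) 1) := by
    have hz : (fun _ : Fin k => z) = fun _ => ∑ i, z i • (Pi.single i 1 : Fin n → ℂ) := by
      funext _
      ext i
      simp [Finset.sum_apply, Pi.single_apply]
    rw [hz, M.map_sum (fun (_ : Fin k) (i : Fin n) => z i • (Pi.single i 1 : Fin n → ℂ))]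
    refine Finset.sum_congr rfl fun r _ => ?_
    rw [M.map_smul_univ, smul_eq_mul]
  have hmaps : ∀ r ∈ (Finset.univ : Finset (Fin k → Fin n)), cnt r ∈
      Finset.piAntidiag (Finset.univ : Finset (Fin n)) k := by
    intro r _
    rw [Finset.mem_piAntidiag]
    exact ⟨cnt_sum r, fun i _ => Finset.mem_univ i⟩
  rw [h1, Finset.mul_sum, ← Finset.sum_fiberwise_of_maps_to hmaps]
  refine Finset.sum_congr rfl fun p hp => ?_
  rw [Finset.sum_mul]
  refine Finset.sum_congr rfl fun r hr => ?_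
  have h2 : cnt r = p := (Finset.mem_filter.mp hr).2
  rw [← h2, mon_cnt]
  ring

lemma rot_coeff (F : (Fin n → ℂ) → ℂ) (hF : AnalyticOnNhd ℂ F univ)
    (hL : MemLp F 2 (gaussMeasure n)) (p : Fin n → ℕ) (k : ℕ) (hpk : ∑ i, p i = k) :
    ∫ z, conj (mon p z) * F z ∂(gaussMeasure n) =
      ∫ z, conj (mon p z) * hk F k z ∂(gaussMeasure n) := by
  have hcont : Continuous F := hF.continuous
  have hint : Integrable (fun z => conj (mon p z) * F z) (gaussMeasure n) :=
    (memLp_conj_mon p).integrable_mul hL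
  have hcm : Continuous (mon p : (Fin n → ℂ) → ℂ) := by
    unfold mon
    fun_prop
  have hpow : ∀ θ : ℝ, conj (exp (θ * I)) ^ k = exp (-(k * θ * I)) := by
    intro θ
    rw [← Complex.exp_conj, ← Complex.exp_nat_mul]
    congr 1
    simp
    ring
  have hkey : ∀ (θ : ℝ) (z : Fin n → ℂ), conj (mon p (((Circle.exp θ : Circle) : ℂ) • z)) *
      F (((Circle.exp θ : Circle) : ℂ) • z) =
      conj (mon p z) * (exp (-(k * θ * I)) * F (exp (θ * I) • z)) := by
    intro θ z
    rw [Circle.coe_exp, mon_smul, hpk, map_mul, map_pow, hpow]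
    ring
  have h1 : ∀ θ : ℝ, ∫ z, conj (mon p z) * F z ∂(gaussMeasure n) =
      ∫ z, conj (mon p z) * (exp (-(k * θ * I)) * F (exp (θ * I) • z)) ∂(gaussMeasure n) := by
    intro θ
    rw [← integral_rot' (Circle.exp θ) (fun z => conj (mon p z) * F z)]
    congr 1
    ext z
    exact hkey θ z
  have hjoint : Integrable (Function.uncurry fun (θ : ℝ) (z : Fin n → ℂ) =>
      conj (mon p z) * (exp (-(k * θ * I)) * F (exp (θ * I) • z)))
      ((volume.restrict (Ioc 0 (2 * π))).prod (gaussMeasure n)) := by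
    rw [integrable_prod_iff]
    · constructor
      · refine Filter.Eventually.of_forall (fun θ => ?_)
        have h2 := (rot_mp' (n := n) (Circle.exp θ)).integrable_comp_of_integrable hint
        refine h2.congr (Filter.Eventually.of_forall fun z => ?_)
        exact hkey θ z
      · have : ∀ θ : ℝ, ∫ z, ‖Function.uncurry (fun (θ : ℝ) (z : Fin n → ℂ) =>
            conj (mon p z) * (exp (-(k * θ * I)) * F (exp (θ * I) • z))) (θ, z)‖ ∂(gaussMeasure n)
            = ∫ z, ‖conj (mon p z) * F z‖ ∂(gaussMeasure n) := by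
          intro θ
          rw [← integral_rot' (Circle.exp θ) (fun z => ‖conj (mon p z) * F z‖)]
          congr 1
          ext z
          simp only [Function.uncurry]
          rw [← hkey θ z]
        simp_rw [this]
        exact integrable_const _
    · apply Continuous.aestronglyMeasurable
      simp only [Function.uncurry_def]
      have h3 : Continuous (fun x : ℝ × (Fin n → ℂ) => exp (x.1 * I) • x.2) := by fun_prop
      have h4 : Continuous (fun x : ℝ × (Fin n → ℂ) => conj (mon p x.2)) :=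
        Complex.continuous_conj.comp (hcm.comp continuous_snd)
      exact h4.mul ((by fun_prop : Continuous (fun x : ℝ × (Fin n → ℂ) =>
        exp (-(k * x.1 * I)))).mul (hcont.comp h3))
  have h8 : (2 * π : ℂ) * ∫ z, conj (mon p z) * F z ∂(gaussMeasure n) =
      ∫ θ in (0 : ℝ)..(2 * π), ∫ z, conj (mon p z) *
        (exp (-(k * θ * I)) * F (exp (θ * I) • z)) ∂(gaussMeasure n) := by
    simp_rw [← h1]
    rw [intervalIntegral.integral_const, sub_zero]
    simp
  rw [intervalIntegral.integral_of_le (by positivity), integral_integral_swap hjoint] at h8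
  have h9 : ∀ z : Fin n → ℂ, ∫ θ in Ioc 0 (2 * π), conj (mon p z) *
      (exp (-(k * θ * I)) * F (exp (θ * I) • z)) = (2 * π) * (conj (mon p z) * hk F k z) := by
    intro z
    rw [← intervalIntegral.integral_of_le (by positivity), intervalIntegral.integral_const_mul]
    have h10 := circle_avg (fun t : ℂ => F (t • z)) (diff_line F hF z) k 1
    simp only [mul_one, one_pow] at h10
    rw [h10]
    unfold hk
    ring
  simp_rw [h9] at h8
  rw [integral_const_mul] at h8
  have hpi : (2 * π : ℂ) ≠ 0 := by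
    exact_mod_cast (by positivity : (2 * π : ℝ) ≠ 0)
  exact mul_left_cancel₀ hpi h8

lemma inner_toLp {f g : (Fin n → ℂ) → ℂ} (hf : MemLp f 2 (gaussMeasure n))
    (hg : MemLp g 2 (gaussMeasure n)) :
    ⟪hf.toLp f, hg.toLp g⟫_ℂ = ∫ z, conj (f z) * g z ∂(gaussMeasure n) := by
  rw [L2.inner_def]
  apply integral_congr_ae
  filter_upwards [hf.coeFn_toLp, hg.coeFn_toLp] with z h1 h2
  rw [h1, h2, RCLike.inner_apply]
  ring

/-- the norm of a monomial -/
noncomputable def nrm (p : Fin n → ℕ) : ℝ := Real.sqrt (π ^ n * ∏ i, ((Nat.factorial (p i) : ℕ) : ℝ))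

lemma nrm_pos (p : Fin n → ℕ) : 0 < nrm p := by
  unfold nrm
  apply Real.sqrt_pos.mpr
  have h : 0 < ∏ i, ((Nat.factorial (p i) : ℕ) : ℝ) :=
    Finset.prod_pos fun i _ => by positivity
  positivity

lemma nrm_sq (p : Fin n → ℕ) : nrm p ^ 2 = π ^ n * ∏ i, ((Nat.factorial (p i) : ℕ) : ℝ) := by
  unfold nrm
  rw [Real.sq_sqrt]
  have h : 0 < ∏ i, ((Nat.factorial (p i) : ℕ) : ℝ) :=
    Finset.prod_pos fun i _ => by positivity
  positivity

lemma nrm_sq' (p : Fin n → ℕ) : (nrm p : ℂ) ^ 2 = (π : ℂ) ^ n *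
    ∏ i, ((Nat.factorial (p i) : ℕ) : ℂ) := by
  have h := nrm_sq p
  have h2 : ((nrm p ^ 2 : ℝ) : ℂ) = ((π ^ n * ∏ i, ((Nat.factorial (p i) : ℕ) : ℝ) : ℝ) : ℂ) := by
    rw [h]
  push_cast at h2
  exact h2

lemma nrm_ne (p : Fin n → ℕ) : (nrm p : ℂ) ≠ 0 := by exact_mod_cast (nrm_pos p).ne'

lemma integral_mon_mon (q p : Fin n → ℕ) :
    ∫ z, conj (mon q z) * mon p z ∂(gaussMeasure n) = if q = p then (nrm p : ℂ) ^ 2 else 0 := by
  have h := integral_mon q p 0
  simp only [wt, Pi.zero_apply, mul_zero, pow_zero, Complex.ofReal_one, Finset.prod_const_one,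
    one_mul, add_zero] at h
  rw [h, nrm_sq']

lemma memLp_emon (p : Fin n → ℕ) :
    MemLp (fun z => (nrm p : ℂ)⁻¹ * mon p z) 2 (gaussMeasure n) :=
  (memLp_mon p).const_mul _

/-- the class of a normalised monomial -/
noncomputable def e (p : Fin n → ℕ) : Lp ℂ 2 (gaussMeasure n) := (memLp_emon p).toLp _

lemma e_eq (p : Fin n → ℕ) : e p = (nrm p : ℂ)⁻¹ • (memLp_mon p).toLp (mon p) := by
  unfold e
  rw [← MemLp.toLp_const_smul]
  rfl

lemma inner_mon (q p : Fin n → ℕ) :
    ⟪(memLp_mon q).toLp (mon q), (memLp_mon p).toLp (mon p)⟫_ℂ =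
      if q = p then (nrm p : ℂ) ^ 2 else 0 := by
  rw [inner_toLp, integral_mon_mon]

lemma orthonormal_e : Orthonormal ℂ (e : (Fin n → ℕ) → Lp ℂ 2 (gaussMeasure n)) := by
  rw [orthonormal_iff_ite]
  intro q p
  rw [e_eq, e_eq, inner_smul_left, inner_smul_right, inner_mon]
  have h2 := nrm_ne p
  split_ifs with h
  · subst h
    rw [map_inv₀, Complex.conj_ofReal]
    field_simp
  · simp

/-- the coefficients of the homogeneous parts are the inner products with the monomials -/
lemma coeff_hk (F : (Fin n → ℂ) → ℂ) (hF : AnalyticOnNhd ℂ F univ)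
    (hL : MemLp F 2 (gaussMeasure n)) (k : ℕ) (z : Fin n → ℂ) :
    hk F k z = ∑ p ∈ Finset.piAntidiag Finset.univ k,
      ⟪e p, hL.toLp F⟫_ℂ * ((nrm p : ℂ)⁻¹ * mon p z) := by
  obtain ⟨a, ha⟩ := poly_hk F hF k
  rw [ha z]
  refine Finset.sum_congr rfl fun p hp => ?_
  have hpk : ∑ i, p i = k := (Finset.mem_piAntidiag.mp hp).1
  have h1 : ∫ z, conj (mon p z) * F z ∂(gaussMeasure n) = a p * (nrm p : ℂ) ^ 2 := by
    rw [rot_coeff F hF hL p k hpk]
    simp_rw [ha, Finset.mul_sum]
    have hi : ∀ q ∈ Finset.piAntidiag (Finset.univ : Finset (Fin n)) k,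
        Integrable (fun z => conj (mon p z) * (a q * mon q z)) (gaussMeasure n) := fun q _ =>
      (memLp_conj_mon p).integrable_mul ((memLp_mon q).const_mul (a q))
    rw [integral_finsetSum _ hi]
    have h2 : ∀ q, ∫ z, conj (mon p z) * (a q * mon q z) ∂(gaussMeasure n) =
        if p = q then a q * (nrm q : ℂ) ^ 2 else 0 := by
      intro q
      have h3 : ∀ z, conj (mon p z) * (a q * mon q z) = a q * (conj (mon p z) * mon q z) := by
        intro z; ring
      simp_rw [h3]
      rw [integral_const_mul, integral_mon_mon, mul_ite, mul_zero]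
    simp_rw [h2]
    rw [Finset.sum_ite_eq, if_pos hp]
  have h4 : ⟪e p, hL.toLp F⟫_ℂ = (nrm p : ℂ)⁻¹ * (a p * (nrm p : ℂ) ^ 2) := by
    rw [e_eq, inner_smul_left, inner_toLp, h1, map_inv₀, Complex.conj_ofReal]
  rw [h4]
  have h5 := nrm_ne p
  field_simp

/-- the multi-indices of degree less than `K` -/
def TT (n K : ℕ) : Finset (Fin n → ℕ) :=
  (Finset.range K).biUnion fun k => Finset.piAntidiag Finset.univ k

lemma sum_TT (K : ℕ) (g : (Fin n → ℕ) → ℂ) :
    ∑ p ∈ TT n K, g p = ∑ k ∈ Finset.range K, ∑ p ∈ Finset.piAntidiag Finset.univ k, g p := by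
  unfold TT
  refine Finset.sum_biUnion ?_
  intro i _ j _ hij
  rw [Function.onFun, Finset.disjoint_left]
  intro p hp hq
  exact hij ((Finset.mem_piAntidiag.mp hp).1.symm.trans (Finset.mem_piAntidiag.mp hq).1)

lemma tendsto_TT : Tendsto (TT n) atTop atTop := by
  apply tendsto_atTop_finset_of_monotone
  · intro a b hab
    unfold TT
    exact Finset.biUnion_subset_biUnion_of_subset_left _ (Finset.range_mono hab)
  · intro p
    refine ⟨(∑ i, p i) + 1, ?_⟩
    unfold TT
    rw [Finset.mem_biUnion]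
    exact ⟨∑ i, p i, Finset.mem_range.mpr (Nat.lt_succ_self _),
      Finset.mem_piAntidiag.mpr ⟨rfl, fun i _ => Finset.mem_univ i⟩⟩

/-- entire functions are limits of polynomials -/
lemma entire_mem (F : (Fin n → ℂ) → ℂ) (hF : AnalyticOnNhd ℂ F univ)
    (hL : MemLp F 2 (gaussMeasure n)) :
    hL.toLp F ∈ (Submodule.span ℂ (Set.range (e (n := n)))).topologicalClosure := by
  obtain ⟨c, hc⟩ : ∃ c : (Fin n → ℕ) → ℂ, c = fun p => ⟪e p, hL.toLp F⟫_ℂ := ⟨_, rfl⟩
  have hsq : Summable (fun p => ‖c p‖ ^ 2) := by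
    rw [hc]; exact orthonormal_e.inner_products_summable _
  have hsum : Summable (fun p => c p • e p) := by
    have h := orthonormal_e.orthogonalFamily.summable_iff_norm_sq_summable c
    have h' := h.mpr hsq
    exact h'
  obtain ⟨g, hg⟩ := hsum
  have hmem : g ∈ (Submodule.span ℂ (Set.range (e (n := n)))).topologicalClosure := by
    have h1 : ∀ S : Finset (Fin n → ℕ), ∑ p ∈ S, c p • e p ∈
        ((Submodule.span ℂ (Set.range (e (n := n))) : Submodule ℂ _) :
          Set (Lp ℂ 2 (gaussMeasure n))) := by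
      intro S
      apply Submodule.sum_mem
      intro p _
      exact Submodule.smul_mem _ _ (Submodule.subset_span ⟨p, rfl⟩)
    exact mem_closure_of_tendsto hg (Filter.Eventually.of_forall h1)
  have hpt : ∀ z, Tendsto (fun K => ∑ p ∈ TT n K, c p * ((nrm p : ℂ)⁻¹ * mon p z)) atTop
      (𝓝 (F z)) := by
    intro z
    have h1 := (hasSum_hk F hF z).tendsto_sum_nat
    refine h1.congr fun K => ?_
    rw [sum_TT]
    refine Finset.sum_congr rfl fun k _ => ?_
    rw [coeff_hk F hF hL k z, hc]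
  have hgF : hL.toLp F = g := by
    have hten : Tendsto (fun K => ∑ p ∈ TT n K, c p • e p) atTop (𝓝 g) :=
      (show Tendsto (fun S : Finset (Fin n → ℕ) => ∑ p ∈ S, c p • e p) atTop (𝓝 g) from
        hg).comp tendsto_TT
    obtain ⟨ns, hns1, hns2⟩ := (tendstoInMeasure_of_tendsto_Lp hten).exists_seq_tendsto_ae
    have hae : ∀ᵐ z ∂(gaussMeasure n), ∀ p, (e p : (Fin n → ℂ) → ℂ) z =
        (nrm p : ℂ)⁻¹ * mon p z := by
      rw [ae_all_iff]
      intro p
      exact (memLp_emon p).coeFn_toLp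
    have hsumae : ∀ S : Finset (Fin n → ℕ), ∀ᵐ z ∂(gaussMeasure n),
        ((∑ p ∈ S, c p • e p : Lp ℂ 2 (gaussMeasure n)) : (Fin n → ℂ) → ℂ) z =
        ∑ p ∈ S, c p * (e p : (Fin n → ℂ) → ℂ) z := by
      classical
      intro S
      induction S using Finset.induction_on with
      | empty =>
        simp only [Finset.sum_empty]
        filter_upwards [Lp.coeFn_zero ℂ 2 (gaussMeasure n)] with z hz
        rw [hz]; rfl
      | insert a S ha ih =>
        rw [Finset.sum_insert ha]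
        filter_upwards [ih, Lp.coeFn_add (c a • e a) (∑ p ∈ S, c p • e p),
          Lp.coeFn_smul (c a) (e a)] with z h1 h2 h3
        rw [h2, Pi.add_apply, h1, h3, Finset.sum_insert ha]
        rfl
    have hsumae' : ∀ᵐ z ∂(gaussMeasure n), ∀ i,
        ((∑ p ∈ TT n (ns i), c p • e p : Lp ℂ 2 (gaussMeasure n)) : (Fin n → ℂ) → ℂ) z =
        ∑ p ∈ TT n (ns i), c p * (e p : (Fin n → ℂ) → ℂ) z := by
      rw [ae_all_iff]
      intro i
      exact hsumae (TT n (ns i))
    apply Lp.ext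
    filter_upwards [hns2, hae, hsumae', hL.coeFn_toLp] with z h1 h2 h3 h4
    rw [h4]
    have h5 : Tendsto (fun i => ∑ p ∈ TT n (ns i), c p * ((nrm p : ℂ)⁻¹ * mon p z)) atTop
        (𝓝 (F z)) := (hpt z).comp hns1.tendsto_atTop
    have h6 : (fun i => ((∑ p ∈ TT n (ns i), c p • e p : Lp ℂ 2 (gaussMeasure n)) :
        (Fin n → ℂ) → ℂ) z) = fun i => ∑ p ∈ TT n (ns i), c p * ((nrm p : ℂ)⁻¹ * mon p z) := by
      ext i
      rw [h3 i]
      apply Finset.sum_congr rfl
      intro p _
      rw [h2 p]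
    rw [h6] at h1
    exact tendsto_nhds_unique h5 h1
  rw [hgF]
  exact hmem

end Pool.Agent.Y165.FK
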