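import Pool.Agent.Y165.FK.B

/-!
# Toeplitz operators on the Bargmann-Segal space of `ℂⁿ` with radial symbols are diagonal
-/

set_option autoImplicit false

open MeasureTheory Complex Set Filter
open scoped Real Topology ComplexConjugate InnerProductSpace

namespace Pool.Agent.Y165.FK

open Pool.Agent.Helper421.Gauss1 Pool.Agent.Helper421.FockDefs Pool.Agent.Helper421.CompactRes

variable {n : ℕ}

lemma analytic_mon (p : Fin n → ℕ) (c : ℂ) : AnalyticOnNhd ℂ (fun z => c * mon p z) univ := by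
  intro z _
  refine analyticAt_const.mul ?_
  unfold mon
  apply Finset.analyticAt_fun_prod
  intro i _
  exact ((ContinuousLinearMap.proj (R := ℂ) (φ := fun _ : Fin n => ℂ) i).analyticAt z).pow (p i)

lemma e_mem (p : Fin n → ℕ) : e p ∈ Fock n := by
  apply Submodule.le_topologicalClosure
  exact ⟨_, analytic_mon p _, (memLp_emon p).coeFn_toLp⟩

lemma entireClasses_le :
    entireClasses n ≤ (Submodule.span ℂ (Set.range (e (n := n)))).topologicalClosure := by
  rintro f ⟨F, hF, hfF⟩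
  have hL : MemLp F 2 (gaussMeasure n) := (memLp_congr_ae hfF).mp (Lp.memLp f)
  have : f = hL.toLp F := by
    apply Lp.ext
    exact hfF.trans hL.coeFn_toLp.symm
  rw [this]
  exact entire_mem F hF hL

lemma fock_le : Fock n ≤ (Submodule.span ℂ (Set.range (e (n := n)))).topologicalClosure :=
  Submodule.topologicalClosure_minimal _ entireClasses_le (Submodule.isClosed_topologicalClosure _)

/-- the orthonormal basis vectors of the Fock space -/
noncomputable def eF (p : Fin n → ℕ) : Fock n := ⟨e p, e_mem p⟩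

lemma orthonormal_eF : Orthonormal ℂ (eF (n := n)) := by
  rw [orthonormal_iff_ite]
  intro q p
  exact (orthonormal_iff_ite.mp orthonormal_e) q p

lemma ext_e {x : Lp ℂ 2 (gaussMeasure n)}
    (hx : x ∈ (Submodule.span ℂ (Set.range (e (n := n)))).topologicalClosure)
    (h : ∀ p, ⟪e p, x⟫_ℂ = 0) : x = 0 := by
  have h1 : x ∈ (Submodule.span ℂ (Set.range (e (n := n))))ᗮ := by
    rw [Submodule.mem_orthogonal]
    intro u hu
    induction hu using Submodule.span_induction with
    | mem y hy =>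
      obtain ⟨p, rfl⟩ := hy
      exact h p
    | zero => simp
    | add a b _ _ ha hb => rw [inner_add_left, ha, hb, add_zero]
    | smul c a _ ha => rw [inner_smul_left, ha, mul_zero]
  rw [← Submodule.orthogonal_closure] at h1
  have h2 := (Submodule.mem_orthogonal _ _).mp h1 x hx
  exact inner_self_eq_zero.mp h2

lemma eF_dense : (Submodule.span ℂ (Set.range (eF (n := n))))ᗮ = ⊥ := by
  rw [Submodule.eq_bot_iff]
  intro x hx
  have h1 : (x : Lp ℂ 2 (gaussMeasure n)) = 0 := by
    apply ext_e (fock_le x.2)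
    intro p
    have := (Submodule.mem_orthogonal _ _).mp hx (eF p) (Submodule.subset_span ⟨p, rfl⟩)
    exact this
  exact Subtype.ext h1

/-- the Hilbert basis of normalised monomials -/
noncomputable def bF : HilbertBasis (Fin n → ℕ) ℂ (Fock n) :=
  HilbertBasis.mkOfOrthogonalEqBot orthonormal_eF eF_dense

lemma bF_apply (p : Fin n → ℕ) : bF p = eF p := by
  unfold bF
  rw [HilbertBasis.coe_mkOfOrthogonalEqBot]

/-- the data of a radial (real) symbol, with the eigenvalues `d` of its Toeplitz operator -/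
structure Diag (φ : (Fin n → ℂ) → ℂ) (d : (Fin n → ℕ) → ℝ) : Prop where
  real : ∀ z, conj (φ z) = φ z
  mem : ∀ p, MemLp (fun z => φ z * mon p z) 2 (gaussMeasure n)
  int : ∀ q p, ∫ z, conj (mon q z) * (φ z * mon p z) ∂(gaussMeasure n) =
    if q = p then (d p : ℂ) * (nrm p : ℂ) ^ 2 else 0

variable {φ φ' : (Fin n → ℂ) → ℂ} {d d' : (Fin n → ℕ) → ℝ}

lemma Diag.memLp (h : Diag φ d) (p : Fin n → ℕ) :
    MemLp (fun z => (nrm p : ℂ)⁻¹ * (φ z * mon p z)) 2 (gaussMeasure n) :=
  (h.mem p).const_mul _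

/-- `P (φ e_p) = d_p e_p` -/
lemma Diag.proj (h : Diag φ d) (p : Fin n → ℕ) :
    (Fock n).orthogonalProjectionOnto ((h.memLp p).toLp _) = (d p : ℂ) • eF p := by
  apply ext_coeff bF
  intro q
  have h1 : ⟪eF q, eF p⟫_ℂ = if q = p then 1 else 0 := orthonormal_iff_ite.mp orthonormal_eF q p
  have h0 : ⟪eF q, (d p : ℂ) • eF p⟫_ℂ = (d p : ℂ) * if q = p then 1 else 0 := by
    rw [← h1]
    exact inner_smul_right (𝕜 := ℂ) (E := Fock n) (eF q) (eF p) (d p : ℂ)
  rw [bF_apply, Submodule.inner_orthogonalProjectionOnto_eq_of_mem_left]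
  refine Eq.trans ?_ h0.symm
  show ⟪e q, _⟫_ℂ = _
  unfold e
  rw [inner_toLp]
  have h2 : ∀ z, conj ((nrm q : ℂ)⁻¹ * mon q z) * ((nrm p : ℂ)⁻¹ * (φ z * mon p z)) =
      ((nrm q : ℂ)⁻¹ * (nrm p : ℂ)⁻¹) * (conj (mon q z) * (φ z * mon p z)) := by
    intro z
    rw [map_mul, map_inv₀, Complex.conj_ofReal]
    ring
  simp_rw [h2]
  rw [integral_const_mul, h.int]
  split_ifs with hqp
  · subst hqp
    have h3 := nrm_ne q
    field_simp
  · simp

lemma Diag.ae_eq (_h : Diag φ d) (p : Fin n → ℕ) :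
    (fun z => φ z * ((eF p : Lp ℂ 2 (gaussMeasure n)) : (Fin n → ℂ) → ℂ) z) =ᵐ[gaussMeasure n]
    (fun z => (nrm p : ℂ)⁻¹ * (φ z * mon p z)) := by
  have h1 : ((eF p : Lp ℂ 2 (gaussMeasure n)) : (Fin n → ℂ) → ℂ) =ᵐ[gaussMeasure n]
    fun z => (nrm p : ℂ)⁻¹ * mon p z := (memLp_emon p).coeFn_toLp
  filter_upwards [h1] with z hz
  rw [hz]
  ring

lemma Diag.mem_domain (h : Diag φ d) (p : Fin n → ℕ) : eF p ∈ (toeplitz n φ).domain :=
  (memLp_congr_ae (h.ae_eq p)).mpr (h.memLp p)

lemma Diag.apply_eF (h : Diag φ d) (p : Fin n → ℕ) :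
    toeplitz n φ ⟨eF p, h.mem_domain p⟩ = (d p : ℂ) • eF p := by
  rw [← h.proj p]
  show (Fock n).orthogonalProjectionOnto (mulClass n φ ⟨eF p, h.mem_domain p⟩) = _
  congr 1
  exact MemLp.toLp_congr (memLp_of_mem_toeplitzDomain (h.mem_domain p)) (h.memLp p) (h.ae_eq p)

lemma Diag.inner_apply (h : Diag φ d) (f : (toeplitz n φ).domain) (p : Fin n → ℕ) :
    ⟪eF p, toeplitz n φ f⟫_ℂ = (d p : ℂ) * ⟪eF p, (f : Fock n)⟫_ℂ := by
  have h1 : ⟪eF p, toeplitz n φ f⟫_ℂ =
      ⟪e p, (mulClass n φ f : Lp ℂ 2 (gaussMeasure n))⟫_ℂ := by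
    show ⟪eF p, (Fock n).orthogonalProjectionOnto (mulClass n φ f)⟫_ℂ = _
    rw [Submodule.inner_orthogonalProjectionOnto_eq_of_mem_left]
    rfl
  have h2 : ⟪e p, (mulClass n φ f : Lp ℂ 2 (gaussMeasure n))⟫_ℂ =
      ⟪(h.memLp p).toLp _, ((f : Fock n) : Lp ℂ 2 (gaussMeasure n))⟫_ℂ := by
    rw [L2.inner_def, L2.inner_def]
    apply integral_congr_ae
    have h3 : (mulClass n φ f : Lp ℂ 2 (gaussMeasure n)) =ᵐ[gaussMeasure n]
        fun z => φ z * ((f : Fock n) : Lp ℂ 2 (gaussMeasure n)) z :=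
      (memLp_of_mem_toeplitzDomain f.2).coeFn_toLp
    have h4 : (e p : (Fin n → ℂ) → ℂ) =ᵐ[gaussMeasure n]
        fun z => (nrm p : ℂ)⁻¹ * mon p z := (memLp_emon p).coeFn_toLp
    filter_upwards [h3, h4, (h.memLp p).coeFn_toLp] with z h5 h6 h7
    rw [h5, h6, h7, RCLike.inner_apply, RCLike.inner_apply]
    simp only [map_mul, h.real z]
    ring
  rw [h1, h2]
  have h8 : ⟪(h.memLp p).toLp _, ((f : Fock n) : Lp ℂ 2 (gaussMeasure n))⟫_ℂ =
      ⟪(Fock n).orthogonalProjectionOnto ((h.memLp p).toLp _), (f : Fock n)⟫_ℂ := by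
    rw [Submodule.inner_orthogonalProjectionOnto_eq_of_mem_right]
  rw [h8, h.proj p, inner_smul_left, Complex.conj_ofReal]

lemma Diag.isClosable (h : Diag φ d) : (toeplitz n φ).IsClosable := by
  apply isClosable_of_diag bF _ d
  intro f i
  rw [bF_apply]
  exact h.inner_apply f i

lemma Diag.compact (h : Diag φ d) (h1 : ∀ p, 1 ≤ d p) (h2 : Tendsto d cofinite atTop) :
    HasCompactResolvent (toeplitz n φ).closure := by
  apply closure_hasCompactResolvent bF _ d h1 h2
  · intro p
    rw [bF_apply]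
    exact ⟨h.mem_domain p, h.apply_eF p⟩
  · intro f i
    rw [bF_apply]
    exact h.inner_apply f i

lemma Diag.not_compact (h : Diag φ d) (c : ℝ) (s : ℕ → (Fin n → ℕ)) (hs : Function.Injective s)
    (h1 : ∀ k, d (s k) = c) : ¬ HasCompactResolvent (toeplitz n φ).closure := by
  apply not_hasCompactResolvent _ (fun k => eF (s k)) _ (c : ℂ)
  · intro k
    refine ⟨h.mem_domain (s k), ?_⟩
    rw [h.apply_eF, h1 k]
  · exact orthonormal_eF.comp s hs

lemma Diag.integrable (h : Diag φ d) (q p : Fin n → ℕ) :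
    Integrable (fun z => conj (mon q z) * (φ z * mon p z)) (gaussMeasure n) :=
  (memLp_conj_mon q).integrable_mul (h.mem p)

lemma Diag.add (h : Diag φ d) (h' : Diag φ' d') :
    Diag (fun z => φ z + φ' z) (fun p => d p + d' p) where
  real z := by rw [map_add, h.real, h'.real]
  mem p := by
    refine (memLp_congr_ae (Filter.Eventually.of_forall fun z => ?_)).mp ((h.mem p).add (h'.mem p))
    simp only [Pi.add_apply]
    ring
  int q p := by
    have h1 : ∀ z, conj (mon q z) * ((φ z + φ' z) * mon p z) =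
        conj (mon q z) * (φ z * mon p z) + conj (mon q z) * (φ' z * mon p z) := by
      intro z; ring
    simp_rw [h1]
    rw [integral_add (h.integrable q p) (h'.integrable q p), h.int, h'.int]
    split_ifs
    · push_cast
      ring
    · ring

lemma Diag.smul (h : Diag φ d) (c : ℝ) : Diag (fun z => (c : ℂ) * φ z) (fun p => c * d p) where
  real z := by rw [map_mul, h.real, Complex.conj_ofReal]
  mem p := by
    refine (memLp_congr_ae (Filter.Eventually.of_forall fun z => ?_)).mp
      ((h.mem p).const_mul (c : ℂ))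
    show (c : ℂ) * (φ z * mon p z) = (c : ℂ) * φ z * mon p z
    ring
  int q p := by
    have h1 : ∀ z, conj (mon q z) * (((c : ℂ) * φ z) * mon p z) =
        (c : ℂ) * (conj (mon q z) * (φ z * mon p z)) := by
      intro z; ring
    simp_rw [h1]
    rw [integral_const_mul, h.int]
    split_ifs
    · push_cast
      ring
    · ring

lemma Diag.zero : Diag (fun _ : Fin n → ℂ => (0 : ℂ)) (fun _ => 0) where
  real z := by simp
  mem p := by
    simp only [zero_mul]
    exact MemLp.zero
  int q p := by simp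

lemma Diag.sum {ι : Type} (s : Finset ι) (f : ι → (Fin n → ℂ) → ℂ) (g : ι → (Fin n → ℕ) → ℝ)
    (h : ∀ i, Diag (f i) (g i)) :
    Diag (fun z => ∑ i ∈ s, f i z) (fun p => ∑ i ∈ s, g i p) := by
  classical
  induction s using Finset.induction_on with
  | empty =>
    simp only [Finset.sum_empty]
    exact Diag.zero
  | insert a s ha ih =>
    simp only [Finset.sum_insert ha]
    exact (h a).add ih

/-- the eigenvalues for the symbol `∏ |z_i|^(2 a_i)` -/
noncomputable def ev (a p : Fin n → ℕ) : ℝ :=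
  ∏ i, (((Nat.factorial (p i + a i) : ℕ) : ℝ) / ((Nat.factorial (p i) : ℕ) : ℝ))

lemma diag_wt (a : Fin n → ℕ) : Diag (wt a) (ev a) where
  real z := by
    unfold wt
    rw [map_prod]
    refine Finset.prod_congr rfl fun i _ => ?_
    rw [Complex.conj_ofReal]
  mem p := memLp_wt_mon a p
  int q p := by
    rw [integral_mon]
    split_ifs
    · rw [nrm_sq', ev]
      push_cast
      rw [Finset.prod_div_distrib]
      have h : (∏ i, ((Nat.factorial (p i) : ℕ) : ℂ)) ≠ 0 :=
        Finset.prod_ne_zero_iff.mpr fun i _ => by exact_mod_cast Nat.factorial_ne_zero _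
      field_simp
    · rfl

end Pool.Agent.Y165.FK
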